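import Pool.Agent.Q60.PL.LWM

/-!
# MP_cd312e_ag: the deviations from the weight-monodromy conjecture on powers are normally distributed

Let `X` be a smooth proper variety over a local field whose residue field has `q` elements. For a
Frobenius eigenvalue on the graded piece `M_s / M_(s - 1)` of the monodromy filtration of `H^m(X^n)`
the weight predicted by the weight-monodromy conjecture is `m + s`; its defect is the difference of
its weight and `m + s`. If the conjecture holds for `X`, all defects on all powers are zero. If it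
fails, the defects on `X^n`, divided by `√n`, are asymptotically normally distributed with mean `0`
and variance `(B - A) / b > 0`, `A = 2 ∑ k rank (N ^ k)`, `B = ∑ (w - m)²`, `b = ∑ dim H^m(X)`.
-/

set_option autoImplicit false

open Module Filter Topology

universe u v w

namespace Pool.Agent.Results.MP_cd312e_ag.NormalDefects

open Pool.Agent.H914 Pool.Agent.Y143 Pool.Agent.Y163.MW Pool.Agent.Q60.PL

/-- **The defects are zero or asymptotically normally distributed.** -/
theorem result {K : Type u} [Field K] {Ω : Type w} [Field Ω] [CharZero Ω] [IsAlgClosed Ω]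
    {T : Theory.{u, v, w} K Ω} {q : ℕ} (hq : 1 < q) (hT : T.IsLocal q) (X : SmVar.{u} K)
    (M : ∀ n, ℤ → Submodule Ω (T.H (pow X n)).V)
    (hM : ∀ n, IsMonodromyFiltrationOn ⊤ (T.H (pow X n)).N (M n))
    (b A B : ℝ) (hb : b = finrank Ω (T.H X).V)
    (hA : A = (T.H X).totRankMoment) (hB : B = (T.H X).totWeightMoment q) :
    ((∀ m, (T.H X).MWPure q m) → ∀ n, (nearDefects (T.H (pow X n)) q (M n) 0 : ℝ) = b ^ (n + 1)) ∧
    (¬ (∀ m, (T.H X).MWPure q m) → A < B ∧ ∀ t : ℝ, 0 ≤ t → Tendsto (fun n : ℕ =>
      (nearDefects (T.H (pow X n)) q (M n) (t * √((n + 1 : ℕ) : ℝ)) : ℝ) / b ^ (n + 1)) atTop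
      (𝓝 (normalWindow (t / √((B - A) / b))))) := by
  obtain ⟨S, H⟩ := exists_powSeq hq hT X
  obtain ⟨hle, hiff⟩ := Coh.moment_tot hq (hT.coh X)
  subst hb hA hB
  refine ⟨fun h n => ?_, fun h => ⟨?_, fun t ht => ?_⟩⟩
  · have h1 := (Coh.mw_iff hq (hT.coh X) S).1 h
    refine H.defects_zero (fun p => ?_) M hM n
    unfold Strings.wt Strings.ct
    rw [h1 p.1]
    ring
  · have h1 : (T.H X).totRankMoment < (T.H X).totWeightMoment q :=
      lt_of_le_of_ne hle fun h2 => h (hiff.1 h2)
    exact_mod_cast h1
  · have h1 := H.defects (exists_defect_ne hq (hT.coh X) S h) ht M hM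
    rw [Coh.totRank_eq S, Coh.totWeight_eq hq (hT.coh X) S]
    exact h1

end Pool.Agent.Results.MP_cd312e_ag.NormalDefects
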