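import Pool.Agent.Q148.LI.WMO

/-!
# The `ℓ`-adic monodromy-weight conjecture is decided by one weight in the cohomology of cubics

Let `K` be as in the problem (`k = K` in the notations of this file), `ℓ ≠ p` a prime, `E` an algebraic
closure of `ℚ_ℓ`, `G = W_K` the Weil group and `d = v : W_K → ℤ`. Let `M` be the category of motives over
`K` for motivated cycles (André), a semisimple abelian category. For a separated `K`-scheme `X` of finite
type let `D.G w j X` be the object of `M` with the realization `Gr^W_w H^j_c(X)`, the part of weight `w`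
of the cohomology with compact supports (`w` is at most `j`); for smooth proper `X` one has
`D.G j j X = h^j(X)`. The functor `ω m` is the part of weight `m` of the `ℓ`-adic realization, with
coefficients extended to `E`, with the monodromy operator `N` and the operators `g ∈ W_K`.

`PurePart D p d ω w j X` says that the eigenvalues of `g` on the graded pieces `gr^N_s` of
`Gr^W_w H^j_c(X)` are algebraic numbers, all of whose complex conjugates have the absolute value
`p ^ ((w + s) v(g) / 2)`, for all `s` and `g`. For smooth proper `X` and `w = j = m` this is the statement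
of question Q1 for `H^m(X)`.

**Theorem.** The following are equivalent:

1. question Q1 for `K`, `ℓ` and all smooth proper schemes over `K`;
2. the same for all smooth projective schemes over `K`;
3. all parts `Gr^W_w H^j_c(X)` are pure in this sense, for all separated schemes `X` of finite type over
   `K`;
4. the single parts `Gr^W_{j-1} H^j_c(T = 1)` of the smooth affine cubic hypersurfaces
   `T(x, y, z) = 1` are pure in this sense, for all `j` and all trilinear forms `T` over `K`.

(The part of weight `j - 1` of `H^j_c(T = 1)` is dual to the part of weight `i + 1` of `H^i(T = 1)`,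
`i = 2 dim - j`, up to a Tate twist: it is next to the smallest possible weight.)
-/

set_option autoImplicit false

open CategoryTheory CategoryTheory.Limits AlgebraicGeometry Pool.Agent.Y116.UV Pool.Agent.Z125.UN
  Pool.Agent.Q193.LT Pool.Agent.Q148.LI

universe w v u

namespace Pool.Agent.Results.MP_cd312e_ag.OneWeightOfCubics

variable {k : Type} [Field k] {M : Type u} [Category.{v} M] [Abelian M] {E G : Type} [Field E]
  [CharZero E]

/-- The statement of Q1 for `X`. -/
def Claim (D : WtData k M) (p : ℕ) (d : G → ℤ) (ω : ℤ → (M ⥤ ModuleCat.{w} (OpAlg E G)))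
    (X : Sch k) : Prop :=
  ∀ j : ℤ, PurePart D p d ω j j X

/-- All parts of all schemes are pure. -/
def AllParts (D : WtData k M) (p : ℕ) (d : G → ℤ) (ω : ℤ → (M ⥤ ModuleCat.{w} (OpAlg E G))) : Prop :=
  ∀ X : Sch k, FT True X → ∀ w' j : ℤ, PurePart D p d ω w' j X

/-- The part of weight `j - 1` of `H^j_c(X)` is pure, for all `j`. -/
def OnePart (D : WtData k M) (p : ℕ) (d : G → ℤ) (ω : ℤ → (M ⥤ ModuleCat.{w} (OpAlg E G)))
    (X : Sch k) : Prop :=
  ∀ j : ℤ, PurePart D p d ω (j - 1) j X

variable {D : WtData k M} {p : ℕ} {d : G → ℤ} {ω : ℤ → (M ⥤ ModuleCat.{w} (OpAlg E G))}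

/-- **One weight decides.** See the explanations above. -/
theorem result [CharZero k] [Fact p.Prime] (h : IsPadic D p d ω) :
    List.TFAE [
      ∀ X : Sch k, SmoothProper X → Claim D p d ω X,
      ∀ Y : Sch k, SmoothProj Y → Claim D p d ω Y,
      AllParts D p d ω,
      ∀ (a b c : ℕ) (T : Fin a → Fin b → Fin c → k), OnePart D p d ω (hypS T)] := by
  have h4 : (∀ Y : Sch k, SmoothProj Y → ∀ j, PureAt p d ω (D.G j j Y)) → AllParts D p d ω :=
    fun h1 X hX w' j => (h.part_iff hX w' j).mpr (h.subquotient h1 X hX w' j)
  tfae_have 1 → 2 := fun h1 Y hY => h1 Y (SmoothProj.proper' hY)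
  tfae_have 2 → 3 := fun h1 => h4 fun Y hY j => (h.part_iff hY.ft j j).mp (h1 Y hY j)
  tfae_have 3 → 1 := fun h1 X hX j => h1 X (SmoothProper.ft hX) j j
  tfae_have 3 → 4 := fun h1 a b c T j => h1 _ (ft_aff True) _ _
  tfae_have 4 → 3 := fun h1 => h4 (one_piece h.wt h.sub h.device
    fun a b c T j => (h.part_iff (ft_aff True) (j - 1) j).mp (h1 a b c T j))
  tfae_finish

end Pool.Agent.Results.MP_cd312e_ag.OneWeightOfCubics
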