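import Pool.Agent.Q148.LI.WM
import Pool.Agent.Q148.LI.Proper

/-!
# The `ℓ`-adic monodromy-weight conjecture and cubic hypersurfaces

There are two cases, with the same theorem.

* *Local case.* `k = K` is a local field as in the problem and `G = W_K` its Weil group.
* *Global case.* `k = ℚ` and `G` is the Weil group of `ℚ_p`, a subgroup of the Galois group of `ℚ`.

Let `M` be the category of motives over `k` for motivated cycles (André), a semisimple abelian category,
`N ↦ N(a)` the Tate twists, `ℓ ≠ p` a prime number and `E` an algebraic closure of `ℚ_ℓ`. For a motive `N`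
let `ω m N` be the part of weight `m` of its `ℓ`-adic realization, with coefficients extended to `E`, with
the monodromy operator `N` and the linear action of `G`; `d = v : G → ℤ`. For a separated `k`-scheme `X`
of finite type let `D.H i X` be the object of `M` given by the graded object of the weight filtration of
the cohomology with compact supports `H^i_c(X)`; for smooth proper `X` it is the motive `h^i(X)`, with
`ω i (h^i(X)) = H^i(X, ℚ_ℓ) ⊗ E`, and it is of weight `i` (`PureWeights`).

`Claim X` is the statement of question Q1 for `X` (all `m`, `s`, `g`). `PureAt p d ω (D.H i X)` says that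
for all `m` and `g` the eigenvalues of `g` on the graded pieces `gr^N_s` of the part of weight `m` of the
cohomology with compact supports are algebraic numbers all of whose complex conjugates have the absolute
value `p ^ ((m + s) v(g) / 2)`.

**Theorem.** (1) The following are equivalent: question Q1 has a positive answer for all smooth proper
schemes over `k`; for all smooth projective schemes over `k`; the cohomology with compact supports of the
smooth affine cubic hypersurfaces `T(x, y, z) = 1` of all trilinear forms `T` over `k` is pure in this
sense. In the global case this is also equivalent to the purity (at `p`) of the cohomology with compact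
supports of the hypersurfaces `X_H : ∑_{(i, j, l) ∈ H} x_i y_j z_l = 1` for the finite sets `H` of triples.

(2) For all `n`, Q1 has a positive answer for all smooth projective `X` of dimension at most `n` over `k`
if and only if the cohomology with compact supports of `T(x, y, z) = 1` is pure for all trilinear forms
`T` over `k` such that one of the three blocks of variables has at most `n + 2` variables (the other two
blocks are arbitrary).

(3) Unconditionally, the cohomology with compact supports of `T(x, y, z) = 1` is pure if one of the three
blocks of variables has at most four variables.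

*Remark.* The `ℓ`-adic cohomology of the fibres of a smooth proper family is locally constant on the
`K`-points of the base as a representation of the Galois group of `K` (Kisin). So every smooth proper
scheme over a local field `K` of residue characteristic `p` has the same cohomology as one that is defined
over a number field in `K`, and this is a factor of the cohomology of a smooth proper scheme over `ℚ`,
restricted to `K`: the global case (for `ℚ` and `p`) implies the conjecture for all these local fields.
-/

set_option autoImplicit false

open CategoryTheory CategoryTheory.Limits AlgebraicGeometry Pool.Agent.Y116.UV Pool.Agent.Z125.UN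
  Pool.Agent.Q193.LT Pool.Agent.Q148.LI

universe w v u

namespace Pool.Agent.Results.MP_cd312e_ag.RationalCubics

variable {k : Type} [Field k] {M : Type u} [Category.{v} M] [Abelian M] {E G : Type} [Field E]
  [CharZero E]

/-- The motive `h^i(X)` of a smooth proper scheme `X` has the weight `i`. -/
def PureWeights (D : CompactData k M) (ω : ℤ → (M ⥤ ModuleCat.{w} (OpAlg E G))) : Prop :=
  ∀ X : Sch k, SmoothProper X → ∀ i m : ℤ, m ≠ i → Subsingleton ((ω m).obj (D.H i X))

/-- The statement of Q1 for `X`. -/
def Claim (D : CompactData k M) (p : ℕ) (d : G → ℤ) (ω : ℤ → (M ⥤ ModuleCat.{w} (OpAlg E G)))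
    (X : Sch k) : Prop :=
  ∀ i : ℤ, Pure E p d i ((ω i).obj (D.H i X))

/-- Purity for `X`, which may be not proper. -/
def PureSch (D : CompactData k M) (p : ℕ) (d : G → ℤ) (ω : ℤ → (M ⥤ ModuleCat.{w} (OpAlg E G)))
    (X : Sch k) : Prop :=
  ∀ i : ℤ, PureAt p d ω (D.H i X)

/-- The statement of Q1 for the smooth projective schemes of dimension at most `n`. -/
def Proj (D : CompactData k M) (p : ℕ) (d : G → ℤ) (ω : ℤ → (M ⥤ ModuleCat.{w} (OpAlg E G)))
    (n : ℕ) : Prop :=
  ∀ Y : Sch k, SmoothProj Y → topologicalKrullDim Y.left ≤ n → Claim D p d ω Y

/-- Purity for all hypersurfaces `T = 1` with a block of at most `m` variables. -/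
def Forms (D : CompactData k M) (p : ℕ) (d : G → ℤ) (ω : ℤ → (M ⥤ ModuleCat.{w} (OpAlg E G)))
    (m : ℕ) : Prop :=
  ∀ (a b c : ℕ) (T : Fin a → Fin b → Fin c → k), (a ≤ m ∨ b ≤ m ∨ c ≤ m) →
    PureSch D p d ω (hypS T)

variable {D : CompactData k M} {p : ℕ} {d : G → ℤ} {ω : ℤ → (M ⥤ ModuleCat.{w} (OpAlg E G))}


lemma claim_iff (hw : PureWeights D ω) {X : Sch k} (hX : SmoothProper X) :
    Claim D p d ω X ↔ PureSch D p d ω X := by
  constructor
  · intro h i m
    by_cases hm : m = i
    · rw [hm]
      exact h i
    · have h1 := hw X hX i m hm
      intro j g x c _ h2 _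
      exact absurd (by rw [Subsingleton.elim x 0]; exact zero_mem _) h2
  · intro h i
    exact h i i

/-- **Purity and cubic hypersurfaces.** See the explanations above. The known cases that are used are
points and smooth projective varieties of dimension at most two. -/
theorem result [CharZero k] [Fact p.Prime] (h : IsRealized D p d ω) (hw : PureWeights D ω)
    (point : PureSch D p d ω (aff k k)) (surfaces : Proj D p d ω 2) :
    List.TFAE [
      ∀ X : Sch k, SmoothProper X → Claim D p d ω X,
      ∀ Y : Sch k, SmoothProj Y → Claim D p d ω Y,
      ∀ (a b c : ℕ) (T : Fin a → Fin b → Fin c → k), PureSch D p d ω (hypS T)] ∧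
    (Frac k → ((∀ X : Sch k, SmoothProper X → Claim D p d ω X) ↔
      ∀ (a b c : ℕ) (H : Finset (Fin a × Fin b × Fin c)), PureSch D p d ω (tripS k H))) ∧
    (∀ n : ℕ, Proj D p d ω n ↔ Forms D p d ω (n + 2)) ∧ Forms D p d ω 4 := by
  have hS := h.pure
  have hn : ∀ n : ℕ, Proj D p d ω n ↔ Forms D p d ω (n + 2) := by
    intro n
    refine Iff.trans ?_ (proj_iff h.compact h.generated hS point n)
    exact ⟨fun h1 Y hY hd => (claim_iff hw (SmoothProj.proper' hY)).mp (h1 Y hY hd),
      fun h1 Y hY hd => (claim_iff hw (SmoothProj.proper' hY)).mpr (h1 Y hY hd)⟩
  have hT : List.TFAE [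
      ∀ X : Sch k, SmoothProper X → Claim D p d ω X,
      ∀ Y : Sch k, SmoothProj Y → Claim D p d ω Y,
      ∀ (a b c : ℕ) (T : Fin a → Fin b → Fin c → k), PureSch D p d ω (hypS T)] := by
    tfae_have 1 → 2 := fun h1 Y hY => h1 Y (SmoothProj.proper' hY)
    tfae_have 2 → 3 := fun h1 => (proj_all_iff h.compact h.generated hS point).mp
      fun Y hY => (claim_iff hw (SmoothProj.proper' hY)).mp (h1 Y hY)
    tfae_have 3 → 1 := fun h1 X hX => (claim_iff hw hX).mpr
      ((all_iff (bnd_compact h.compact hS point)).mpr h1 X (SmoothProper.ft hX))
    tfae_finish
  refine ⟨hT, fun hk => ?_, hn, (hn 2).mp surfaces⟩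
  have h01 : (∀ X : Sch k, SmoothProper X → Claim D p d ω X) ↔
      ∀ Y : Sch k, SmoothProj Y → Claim D p d ω Y := hT.out 0 1
  refine h01.trans (Iff.trans ?_ (proj_graph_iff hk h.compact h.generated hS point))
  exact ⟨fun h1 Y hY => (claim_iff hw (SmoothProj.proper' hY)).mp (h1 Y hY),
    fun h1 Y hY => (claim_iff hw (SmoothProj.proper' hY)).mpr (h1 Y hY)⟩

end Pool.Agent.Results.MP_cd312e_ag.RationalCubics
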