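import Pool.Agent.Q60.PL.LWM

/-!
# MP_cd312e_ag: monodromy and weights on the powers of a variety: the Rayleigh law and the normal law

Let `X` be a smooth proper variety over a local field `K` whose residue field has `q` elements,
`b` the sum of its `ℓ`-adic Betti numbers, `A = 2 ∑ k rank (N ^ k)` (over the powers of the monodromy
operator `N` of the cohomology of `X`) and `B = ∑ (w - m)²` (over the Frobenius eigenvalues of weight
`w` on the `H^m(X)`). Suppose that `N` is not zero.

* The number of the Jordan blocks of size greater than `t √n` of the monodromy operator of `X^n` is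
  asymptotic to `b^n √(2 b / (π A n)) exp (- t² b / (2 A))`: the sizes of the blocks, divided by
  `√n`, follow the Rayleigh law.
* The weights of the Frobenius eigenvalues on the `H^m(X^n)`, more precisely the numbers
  `(w - m) / √n`, follow the normal law of variance `B / b`.
* `A ≤ B`, and the two laws match (`A = B`) if and only if the weight-monodromy conjecture is true
  for `X`.
-/

set_option autoImplicit false

open Module Filter Topology

universe u v w

namespace Pool.Agent.Results.MP_cd312e_ag.RayleighLaw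

open Pool.Agent.H914 Pool.Agent.Y143 Pool.Agent.Y163.MW Pool.Agent.Q60.PL

/-- **The Rayleigh law for the monodromy and the normal law for the weights.** -/
theorem result {K : Type u} [Field K] {Ω : Type w} [Field Ω] [CharZero Ω] [IsAlgClosed Ω]
    {T : Theory.{u, v, w} K Ω} {q : ℕ} (hq : 1 < q) (hT : T.IsLocal q) (X : SmVar.{u} K)
    (hN : (T.H X).N ≠ 0) (b A B : ℝ) (hb : b = finrank Ω (T.H X).V)
    (hA : A = (T.H X).totRankMoment) (hB : B = (T.H X).totWeightMoment q) :
    (∀ t : ℝ, 0 ≤ t → Tendsto (fun n : ℕ => √((n + 1 : ℕ) : ℝ) *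
      ((numBlocks (T.H (pow X n)).N ⌊t * √((n + 1 : ℕ) : ℝ)⌋₊ : ℝ) / b ^ (n + 1))) atTop
      (𝓝 (√(2 * b / (Real.pi * A)) * Real.exp (-(t ^ 2 * b / (2 * A)))))) ∧
    (∀ t : ℝ, 0 ≤ t → Tendsto (fun n : ℕ =>
      (nearWeights (T.H (pow X n)) q (t * √((n + 1 : ℕ) : ℝ)) : ℝ) / b ^ (n + 1)) atTop
      (𝓝 (normalWindow (t / √(B / b))))) ∧
    A ≤ B ∧ (A = B ↔ ∀ m, (T.H X).MWPure q m) := by
  obtain ⟨S, H⟩ := exists_powSeq hq hT X
  obtain ⟨hle, hiff⟩ := Coh.moment_tot hq (hT.coh X)
  subst hb hA hB
  refine ⟨fun t ht => ?_, fun t ht => ?_, by exact_mod_cast hle, ?_⟩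
  · have h1 := H.rayleigh hN ht
    rw [Coh.totRank_eq S]
    exact h1
  · have h1 := H.weights (exists_wt_ne hq (hT.coh X) S hN) ht
    rw [Coh.totWeight_eq hq (hT.coh X) S]
    exact h1
  · rw [← hiff]
    exact_mod_cast Iff.rfl

end Pool.Agent.Results.MP_cd312e_ag.RayleighLaw
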